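import Mathlib
import Pool.Agent.TH841.SH.Grp

/-!
# Project SX: the exact sequence with the rank and the Tate-Shafarevich group, general part
-/

set_option autoImplicit false

namespace Pool.Agent.Y214.SX

open WeierstrassCurve Pool.Agent.TH841.SH

open Pool.Agent.W262.SH (QB Pt act IsCoc IsCob LocTriv shaCoc cob Sha)

/-- the cokernel of doubling on a finite abelian group is as large as the kernel -/
lemma index_double (F : Type) [AddCommGroup F] [Finite F] :
    Nat.card (F ⧸ (nsmulAddMonoidHom (α := F) 2).range) =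
      Nat.card (nsmulAddMonoidHom (α := F) 2).ker := by
  set f := nsmulAddMonoidHom (α := F) 2
  have h1 := AddSubgroup.card_mul_index f.ker
  have h2 := AddSubgroup.card_mul_index f.range
  rw [AddSubgroup.index_ker] at h1
  rw [AddSubgroup.index_eq_card] at h2
  have h3 : 0 < Nat.card f.range := Nat.card_pos
  have h4 : Nat.card f.range * Nat.card (F ⧸ f.range) = Nat.card f.range * Nat.card f.ker := by
    rw [h2, ← h1, mul_comm]
  exact Nat.eq_of_mul_eq_mul_left h3 h4

/-- the order of `G / 2 G` for a finitely generated abelian group `G` -/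
theorem card_quot (G : Type) [AddCommGroup G] (hG : AddGroup.FG G) :
    Nat.card (G ⧸ (nsmulAddMonoidHom (α := G) 2).range) =
      2 ^ (Module.finrank ℤ G) * Nat.card {x : G // x + x = 0} := by
  have : Module.Finite ℤ G := Module.Finite.iff_addGroup_fg.mpr hG
  let F := Submodule.torsion ℤ G
  let M := G ⧸ F
  have hr : Module.finrank ℤ M = Module.finrank ℤ G :=
    finrank_quotient_eq_of_le_torsion le_rfl
  rw [← hr]
  have : Module.Finite ℤ M := inferInstance
  have : Module.Free ℤ M := inferInstance
  have hFf : Finite F := Module.finite_of_fg_torsion F (by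
    intro x
    obtain ⟨⟨a, ha⟩, hx⟩ := Submodule.torsion_isTorsion (R := ℤ) (M := G) (x := x)
    exact ⟨⟨a, ha⟩, hx⟩)
  obtain ⟨σ, hσ⟩ := Module.projective_lifting_property F.mkQ (LinearMap.id : M →ₗ[ℤ] M)
    F.mkQ_surjective
  have hσ' : ∀ m : M, F.mkQ (σ m) = m := fun m => LinearMap.congr_fun hσ m
  -- the projection to the torsion subgroup
  let π : G → F := fun g => ⟨g - σ (F.mkQ g), by
    rw [← Submodule.Quotient.mk_eq_zero]
    change F.mkQ (g - σ (F.mkQ g)) = 0
    rw [map_sub, hσ', sub_self]⟩
  have hπadd : ∀ g h, π (g + h) = π g + π h := by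
    intro g h
    apply Subtype.ext
    simp only [π, map_add, Submodule.coe_add]
    abel
  let r := Module.finrank ℤ M
  let b : Module.Basis (Fin r) ℤ M := Module.finBasis ℤ M
  let φ : G → (Fin r → ZMod 2) := fun g i =>
    ((b.repr (F.mkQ g) i : ℤ) : ZMod 2)
  have hφadd : ∀ g h, φ (g + h) = φ g + φ h := by
    intro g h
    ext i
    simp [φ]
  let D := (nsmulAddMonoidHom (α := F) 2).range
  let ψ : G →+ (Fin r → ZMod 2) × (F ⧸ D) :=
    AddMonoidHom.mk' (fun g => (φ g, QuotientAddGroup.mk (π g))) (fun g h => by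
      rw [hφadd, hπadd]
      rfl)
  have hψsurj : Function.Surjective ψ := by
    rintro ⟨v, c⟩
    obtain ⟨f, rfl⟩ := QuotientAddGroup.mk_surjective c
    let m : M := b.equivFun.symm (fun i => ((v i).val : ℤ))
    refine ⟨σ m + f, ?_⟩
    have h1 : F.mkQ (σ m + f) = m := by
      rw [map_add, hσ']
      have : F.mkQ (f : G) = 0 := by
        rw [Submodule.mkQ_apply, Submodule.Quotient.mk_eq_zero]
        exact f.2
      rw [this, add_zero]
    show (φ (σ m + f), QuotientAddGroup.mk (π (σ m + f))) = _
    congr 1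
    · ext i
      simp only [φ, h1, m]
      rw [← Module.Basis.equivFun_apply, LinearEquiv.apply_symm_apply]
      simp
    · congr 1
      apply Subtype.ext
      simp only [π, h1]
      abel
  have hker : ψ.ker = (nsmulAddMonoidHom (α := G) 2).range := by
    ext g
    rw [AddMonoidHom.mem_ker]
    constructor
    · intro hg
      have h1 : φ g = 0 := congrArg Prod.fst hg
      have h2 : (QuotientAddGroup.mk (π g) : F ⧸ D) = 0 := congrArg Prod.snd hg
      rw [QuotientAddGroup.eq_zero_iff] at h2
      obtain ⟨f, hf⟩ := h2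
      have h3 : ∀ i, ∃ z : ℤ, b.repr (F.mkQ g) i = 2 * z := by
        intro i
        have := congrFun h1 i
        simp only [φ, Pi.zero_apply] at this
        rw [ZMod.intCast_zmod_eq_zero_iff_dvd] at this
        obtain ⟨z, hz⟩ := this
        exact ⟨z, by exact_mod_cast hz⟩
      choose z hz using h3
      let m : M := b.equivFun.symm z
      have h4 : F.mkQ g = (2 : ℤ) • m := by
        apply b.equivFun.injective
        rw [map_smul, LinearEquiv.apply_symm_apply]
        ext i
        rw [Module.Basis.equivFun_apply, hz i]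
        rfl
      refine ⟨σ m + f, ?_⟩
      have h5 : (π g : G) = f + f := by
        rw [← hf, nsmulAddMonoidHom_apply, two_nsmul]
        rfl
      have h6 : g = σ (F.mkQ g) + (π g : G) := by
        simp only [π]
        abel
      rw [nsmulAddMonoidHom_apply, two_nsmul]
      conv_rhs => rw [h6, h5, h4, map_smul, two_smul]
      abel
    · rintro ⟨q, rfl⟩
      rw [nsmulAddMonoidHom_apply, map_nsmul]
      apply Prod.ext
      · ext i
        have : φ q i + φ q i = 0 := CharTwo.add_self_eq_zero _
        show (2 • φ q) i = 0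
        rw [two_nsmul]
        exact this
      · show (2 • (QuotientAddGroup.mk (π q) : F ⧸ D)) = 0
        rw [← QuotientAddGroup.mk_nsmul, QuotientAddGroup.eq_zero_iff]
        exact ⟨π q, rfl⟩
  have e1 : Nat.card (G ⧸ (nsmulAddMonoidHom (α := G) 2).range) =
      Nat.card ((Fin r → ZMod 2) × (F ⧸ D)) := by
    rw [← hker]
    exact Nat.card_congr (QuotientAddGroup.quotientKerEquivOfSurjective ψ hψsurj).toEquiv
  rw [e1, Nat.card_prod, index_double F]
  congr 1
  · rw [Nat.card_eq_fintype_card, Fintype.card_fun, ZMod.card, Fintype.card_fin]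
  · refine Nat.card_congr ⟨fun x => ⟨(x.1 : G), ?_⟩, fun x => ⟨⟨x.1, ?_⟩, ?_⟩, ?_, ?_⟩
    · have := x.2
      rw [AddMonoidHom.mem_ker, nsmulAddMonoidHom_apply, two_nsmul] at this
      exact congrArg Subtype.val this
    · refine ⟨⟨2, by simp⟩, ?_⟩
      change (2 : ℤ) • x.1 = 0
      rw [two_smul]
      exact x.2
    · rw [AddMonoidHom.mem_ker, nsmulAddMonoidHom_apply, two_nsmul]
      apply Subtype.ext
      exact x.2
    · intro x; rfl
    · intro x; rfl

section
open scoped Classical
variable {W : WeierstrassCurve ℚ} {a b c : ℚ}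

/-- the kernel of the map to the Tate-Shafarevich group is `E(ℚ) / 2 E(ℚ)` -/
theorem card_ker (h : IsR W a b c) (hab : a ≠ b) (hac : a ≠ c) (hbc : b ≠ c) :
    Nat.card (toSha h).ker =
      Nat.card (W.toAffine.Point ⧸ (nsmulAddMonoidHom (α := W.toAffine.Point) 2).range) := by
  obtain ⟨j, hj, hjσ, hjf⟩ := exists_rat W
  have hinj : Function.Injective (algebraMap ℚ QB) := (algebraMap ℚ QB).injective
  have hdiv : ∀ g : W.toAffine.Point, ∃ Q : Pt W QB, j g = Q + Q := fun g =>
    (h.base QB).div two_ne_zero (hinj.ne hab) (hinj.ne hac) (hinj.ne hbc) (j g)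
  choose q hq using hdiv
  have hsel : ∀ (g : W.toAffine.Point) (Q : Pt W QB), j g = Q + Q →
      (fun σ : QB ≃ₐ[ℚ] QB => act W σ.toAlgHom Q - Q) ∈ selHom W := by
    intro g Q hQ
    apply cob_sel h
    intro σ
    have e3 : act W σ.toAlgHom Q - Q + (act W σ.toAlgHom Q - Q) =
      (act W σ.toAlgHom Q + act W σ.toAlgHom Q) - (Q + Q) := by abel
    rw [e3, ← map_add, ← hQ, hjσ, sub_self]
  -- two halves of the same point give the same homomorphism
  have hsame : ∀ (Q Q' : Pt W QB), Q + Q = Q' + Q' → ∀ σ : QB ≃ₐ[ℚ] QB,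
      act W σ.toAlgHom Q - Q = act W σ.toAlgHom Q' - Q' := by
    intro Q Q' hQQ σ
    have e1 : (Q - Q') + (Q - Q') = 0 := by
      have : (Q - Q') + (Q - Q') = (Q + Q) - (Q' + Q') := by abel
      rw [this, hQQ, sub_self]
    have e2 := tors_fix h e1 σ
    rw [map_sub] at e2
    have e3 : act W σ.toAlgHom Q = act W σ.toAlgHom Q' + (Q - Q') := by
      rw [← e2]
      abel
    rw [e3]
    abel
  let δ : W.toAffine.Point →+ selHom W :=
    AddMonoidHom.mk' (fun g => ⟨_, hsel g (q g) (hq g)⟩) (fun g g' => by
      apply Subtype.ext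
      funext σ
      show act W σ.toAlgHom (q (g + g')) - q (g + g') =
        (act W σ.toAlgHom (q g) - q g) + (act W σ.toAlgHom (q g') - q g')
      have e1 : q (g + g') + q (g + g') = (q g + q g') + (q g + q g') := by
        rw [← hq, map_add, hq g, hq g']
        abel
      rw [hsame _ _ e1 σ, map_add]
      abel)
  have hδ : ∀ g σ, (δ g : (QB ≃ₐ[ℚ] QB) → Pt W QB) σ = act W σ.toAlgHom (q g) - q g :=
    fun g σ => rfl
  have hrange : δ.range = (toSha h).ker := by
    ext f
    rw [toSha_ker]
    constructor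
    · rintro ⟨g, rfl⟩
      exact ⟨q g, fun σ => rfl⟩
    · rintro ⟨P, hP⟩
      have hfix : ∀ σ : QB ≃ₐ[ℚ] QB, act W σ.toAlgHom (P + P) = P + P := by
        intro σ
        have e1 := f.2.2.1 σ
        rw [hP σ] at e1
        have e2 : act W σ.toAlgHom P - P + (act W σ.toAlgHom P - P) =
          (act W σ.toAlgHom P + act W σ.toAlgHom P) - (P + P) := by abel
        rw [e2, sub_eq_zero] at e1
        rw [map_add]
        exact e1
      obtain ⟨g, hg⟩ := hjf _ hfix
      refine ⟨g, ?_⟩
      apply Subtype.ext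
      funext σ
      rw [hδ, hP σ]
      exact hsame _ _ (by rw [← hq, hg]) σ
  have hker : δ.ker = (nsmulAddMonoidHom (α := W.toAffine.Point) 2).range := by
    ext g
    rw [AddMonoidHom.mem_ker]
    constructor
    · intro hg
      have hfix : ∀ σ : QB ≃ₐ[ℚ] QB, act W σ.toAlgHom (q g) = q g := by
        intro σ
        have e1 := hδ g σ
        rw [hg] at e1
        have e2 : (0 : Pt W QB) = act W σ.toAlgHom (q g) - q g := e1
        exact sub_eq_zero.1 e2.symm
      obtain ⟨g', hg'⟩ := hjf _ hfix
      refine ⟨g', ?_⟩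
      apply hj
      rw [nsmulAddMonoidHom_apply, two_nsmul, map_add, hg', hq]
    · rintro ⟨g', rfl⟩
      apply Subtype.ext
      funext σ
      rw [hδ, nsmulAddMonoidHom_apply, two_nsmul]
      have e1 : q (g' + g') + q (g' + g') = j g' + j g' := by rw [← hq, map_add]
      rw [hsame _ _ e1 σ, hjσ, sub_self]
      rfl
  rw [← hrange, ← hker]
  exact (Nat.card_congr (QuotientAddGroup.quotientKerEquivRange δ).toEquiv).symm

/-- the points of order dividing two -/
theorem card_two (h : IsR W a b c) (hab : a ≠ b) (hac : a ≠ c) (hbc : b ≠ c) :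
    Nat.card {x : W.toAffine.Point // x + x = 0} = 4 := by
  have h2 : (2 : ℚ) ≠ 0 := two_ne_zero
  have ha : W.toAffine.Nonsingular a 0 := h.nons h2 hab hac hbc (by ring)
  have hb : W.toAffine.Nonsingular b 0 := h.nons h2 hab hac hbc (by ring)
  have hc : W.toAffine.Nonsingular c 0 := h.nons h2 hab hac hbc (by ring)
  let S : Finset W.toAffine.Point :=
    {0, Affine.Point.some _ _ ha, Affine.Point.some _ _ hb, Affine.Point.some _ _ hc}
  have hS : S.card = 4 := by
    simp only [S]
    rw [Finset.card_insert_of_notMem, Finset.card_insert_of_notMem, Finset.card_insert_of_notMem,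
      Finset.card_singleton]
    · simp [hbc]
    · simp [hab, hac]
    · simp
  have hiff : ∀ x : W.toAffine.Point, x + x = 0 ↔ x ∈ S := by
    intro x
    simp only [S, Finset.mem_insert, Finset.mem_singleton]
    constructor
    · intro hx
      rcases h.tors h2 hx with rfl | ⟨_, rfl⟩ | ⟨_, rfl⟩ | ⟨_, rfl⟩
      · exact Or.inl rfl
      · exact Or.inr (Or.inl rfl)
      · exact Or.inr (Or.inr (Or.inl rfl))
      · exact Or.inr (Or.inr (Or.inr rfl))
    · rintro (rfl | rfl | rfl | rfl)
      · exact add_zero _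
      · exact (h.add_self h2 ha).2 rfl
      · exact (h.add_self h2 hb).2 rfl
      · exact (h.add_self h2 hc).2 rfl
  rw [Nat.card_congr (Equiv.subtypeEquivRight hiff), Nat.card_eq_fintype_card, Fintype.card_coe, hS]

/-- **The exact count.** -/
theorem card_eq (h : IsR W a b c) (hab : a ≠ b) (hac : a ≠ c) (hbc : b ≠ c)
    (hfg : AddGroup.FG W.toAffine.Point) [Finite (selHom W)] :
    Finite {x : Sha W // x + x = 0} ∧
    2 ^ (Module.finrank ℤ W.toAffine.Point + 2) * Nat.card {x : Sha W // x + x = 0} =
      Nat.card (selHom W) := by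
  have e1 : Nat.card {x : Sha W // x + x = 0} = Nat.card (toSha h).range :=
    Nat.card_congr (Equiv.subtypeEquivRight (fun x => (toSha_range h hab hac hbc x).symm))
  have hfr : Finite (toSha h).range := Finite.of_surjective _ (toSha h).rangeRestrict_surjective
  have e2 : Nat.card (selHom W) = Nat.card (toSha h).range * Nat.card (toSha h).ker := by
    rw [AddSubgroup.card_eq_card_quotient_mul_card_addSubgroup (toSha h).ker]
    congr 1
    exact Nat.card_congr (QuotientAddGroup.quotientKerEquivRange (toSha h)).toEquiv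
  refine ⟨Finite.of_equiv _ (Equiv.subtypeEquivRight (fun x => toSha_range h hab hac hbc x)), ?_⟩
  rw [e1, e2, card_ker h hab hac hbc, card_quot _ hfg, card_two h hab hac hbc, pow_add]
  ring

end

end Pool.Agent.Y214.SX
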