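import Pool.Agent.Y667.SX.Stm
import Pool.Agent.Y214.SX.Rk

/-!
# Project SX: the exact sequence with the rank and the Tate-Shafarevich group
-/

set_option autoImplicit false

namespace Pool.Agent.Y214.SX

open WeierstrassCurve Pool.Agent.TH841.SH

open scoped Classical

open Pool.Agent.W262.SH (QB Pt act IsCoc IsCob LocTriv shaCoc cob Sha)
open Pool.Agent.W307.SE Pool.Agent.W307.RT
open Pool.Agent.W402.FK (coef dist roots cub)
open Pool.Agent.H437R2.Man.MW (crv pt_fg)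

/-- **RKSHA.** -/
theorem RKSHA : Pool.Agent.Y667.SX.St_RKSHA := by
  intro A B e1 e2 e3 hD h hfin
  obtain ⟨d12, d13, d23⟩ := dist A B e1 e2 e3 hD h
  have hR := isR_Sh h
  have q12 : (e1 : ℚ) ≠ e2 := by exact_mod_cast d12
  have q13 : (e1 : ℚ) ≠ e3 := by exact_mod_cast d13
  have q23 : (e2 : ℚ) ≠ e3 := by exact_mod_cast d23
  have hW : Sh A B = crv (-(e1 : ℚ)) (-(e2 : ℚ)) (-(e3 : ℚ)) := by
    apply WeierstrassCurve.ext
    · rw [hR.h1]
      rfl
    · rw [hR.h2]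
      show _ = -(e1 : ℚ) + -(e2 : ℚ) + -(e3 : ℚ)
      ring
    · rw [hR.h3]
      rfl
    · rw [hR.h4]
      show _ = -(e1 : ℚ) * -(e2 : ℚ) + -(e1 : ℚ) * -(e3 : ℚ) + -(e2 : ℚ) * -(e3 : ℚ)
      ring
    · rw [hR.h6]
      show _ = -(e1 : ℚ) * -(e2 : ℚ) * -(e3 : ℚ)
      ring
  have hfg : AddGroup.FG (Sh A B).toAffine.Point := by
    rw [hW]
    exact pt_fg (fun h => q12 (neg_injective h)) (fun h => q13 (neg_injective h))
      (fun h => q23 (neg_injective h))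
  obtain ⟨h1, h2⟩ := card_eq hR q12 q13 q23 hfg
  have e : {x : D.Sha (Sh A B) // x + x = 0} ≃ {x : Sha (Sh A B) // x + x = 0} :=
    (D.eSha (Sh A B)).toEquiv.subtypeEquiv (fun x => by
      show x + x = 0 ↔ (D.eSha (Sh A B)) x + (D.eSha (Sh A B)) x = 0
      rw [← map_add, EmbeddingLike.map_eq_zero_iff])
  exact ⟨Finite.of_equiv _ e.symm, by rw [Nat.card_congr e]; exact h2⟩

end Pool.Agent.Y214.SX
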